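import Pool.Agent.H18.XZ.TB

/-!
# Row ISO (exponentially large protocols beside the exponential hierarchy in EQP): a family of tables
is a table
-/

set_option autoImplicit false

namespace Pool.Agent.H6.XZ

open Pool.Agent.H70.OQ Pool.Agent.H18.XZ

/-- The nodes of level `0`. -/
def n0 (R A : Type) (Y : ℕ → Type) : R × Node A Y 0 ≃ Node (R × A) Y 0 := Equiv.refl (R × A)

/-- There are no hidden children below level `0`. -/
def h0 (R A : Type) (Y : ℕ → Type) : (R → Hid A Y 0) ≃ Hid (R × A) Y 0 where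
  toFun _ := ()
  invFun _ _ := ()
  left_inv _ := rfl
  right_inv _ := rfl

/-- The nodes of the next level. -/
def n1 {R A : Type} {Y : ℕ → Type} {k : ℕ} (ψ : R × Node A Y k ≃ Node (R × A) Y k) :
    R × Node A Y (k + 1) ≃ Node (R × A) Y (k + 1) where
  toFun p := (ψ (p.1, p.2.1), p.2.2)
  invFun v := ((ψ.symm v.1).1, ((ψ.symm v.1).2, v.2))
  left_inv p := by
    obtain ⟨r, x, y⟩ := p
    simp
  right_inv v := by
    obtain ⟨x, y⟩ := v
    simp

/-- The hidden children of the next level. -/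
def h1 {R A : Type} {Y : ℕ → Type} {k : ℕ} (φ : (R → Hid A Y k) ≃ Hid (R × A) Y k)
    (ψ : R × Node A Y k ≃ Node (R × A) Y k) :
    (R → Hid A Y (k + 1)) ≃ Hid (R × A) Y (k + 1) where
  toFun F := (φ fun r => (F r).1, fun v => (F (ψ.symm v).1).2 (ψ.symm v).2)
  invFun G := fun r => (φ.symm G.1 r, fun x => G.2 (ψ (r, x)))
  left_inv F := by
    funext r
    refine Prod.ext ?_ ?_
    · simp
    · funext x
      simp
  right_inv G := by
    refine Prod.ext ?_ ?_
    · simp
    · funext v
      simp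

/-- ISO: a family of tables is a table. -/
theorem pf_ISO : T_ISO := by
  intro R A Y _ k
  induction k with
  | zero => exact ⟨h0 R A Y, n0 R A Y, fun b H r x => rfl⟩
  | succ k ih =>
    obtain ⟨φ, ψ, h⟩ := ih
    refine ⟨h1 φ ψ, n1 ψ, fun b H r x => ?_⟩
    obtain ⟨x, y⟩ := x
    show (!(sv b k (φ fun r => (H r).1) (ψ (r, x)) &&
      decide (y = (H (ψ.symm (ψ (r, x))).1).2 (ψ.symm (ψ (r, x))).2))) =
      !(sv (fun u => b (r, u)) k (H r).1 x && decide (y = (H r).2 x))
    rw [h, Equiv.symm_apply_apply]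

end Pool.Agent.H6.XZ
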